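import Pool.Agent.H83.AT.Targets

/-!
Module EX of board at_modules (MP_c9ef16_gt): functors with transported stalks are exact.
-/

open CategoryTheory CategoryTheory.Limits TopologicalSpace Topology Set Opposite

namespace Pool.Agent.H20.AT

open Pool.Agent.H96.AL Pool.Agent.H83.AT

lemma sm_add {F : Type} [Field F] {X : TopCat.{0}} {A B : Sh F X} (f g : A ⟶ B) (x : X)
    (s : Stk A x) : sm (f + g) x s = sm f x s + sm g x s := by
  have h := (stF F x).map_add (f := f) (g := g)
  exact congrArg (fun q => q.hom s) h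

/-- EX: exactness criterion -/
theorem pf_EX : T_EX := by
  intro F _ X Y Φ hΦ
  have hadd : Φ.Additive := by
    constructor
    intro A B f g
    apply hom_ext
    intro y s
    rcases hΦ y with h | ⟨x, e, he⟩
    · rw [h A s, map_zero, map_zero]
    · obtain ⟨t, rfl⟩ := (e A).surjective s
      rw [sm_add, he, he, he, sm_add, map_add]
  have hse : ∀ S : ShortComplex (Sh F X), S.ShortExact → (S.map Φ).ShortExact := by
    intro S hS
    have h0 := (shortExact_iff S.f S.g S.zero).1 hS
    obtain ⟨h1, h2, h3⟩ := h0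
    have hz : Φ.map S.f ≫ Φ.map S.g = 0 := (S.map Φ).zero
    refine (shortExact_iff (Φ.map S.f) (Φ.map S.g) hz).2 ⟨?_, ?_, ?_⟩
    · intro y
      rcases hΦ y with h | ⟨x, e, he⟩
      · intro a b _
        rw [h _ a, h _ b]
      · intro a b hab
        obtain ⟨a, rfl⟩ := (e _).surjective a
        obtain ⟨b, rfl⟩ := (e _).surjective b
        rw [he, he] at hab
        rw [h1 x ((e _).injective hab)]
    · intro y
      rcases hΦ y with h | ⟨x, e, he⟩
      · intro a
        exact ⟨0, by rw [map_zero, h _ a]⟩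
      · intro a
        obtain ⟨a, rfl⟩ := (e _).surjective a
        obtain ⟨b, rfl⟩ := h2 x a
        exact ⟨e _ b, he _ _ _ _⟩
    · intro y s hs
      rcases hΦ y with h | ⟨x, e, he⟩
      · exact ⟨0, by rw [map_zero, h _ s]⟩
      · obtain ⟨a, rfl⟩ := (e _).surjective s
        rw [he] at hs
        have ha : sm S.g x a = 0 := (e _).injective (by rw [hs, map_zero])
        obtain ⟨t, rfl⟩ := h3 x a ha
        exact ⟨e _ t, he _ _ _ _⟩
  have h := (Φ.exact_tfae.out 0 3).1 hse
  exact ⟨hadd, h.1, h.2⟩

end Pool.Agent.H20.AT
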