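import Pool.Agent.H83.AT.Targets

/-!
Modules PS and SP of board at_modules (MP_c9ef16_gt).
-/

open CategoryTheory CategoryTheory.Limits TopologicalSpace Topology Set Opposite

namespace Pool.Agent.H20.AT

open Pool.Agent.H96.AL Pool.Agent.H83.AT

/-- SP: stalks of the pushforward from an open subset -/
theorem pf_SP : T_SP := by
  intro F _ X U G y
  have hf : IsInducing (inc U : osp U ⟶ X) := IsInducing.subtypeVal
  have h := TopCat.Presheaf.stalkPushforward.stalkPushforward_iso_of_isInducing
    (ModuleCat.{0} F) hf G.1 y
  exact (ConcreteCategory.isIso_iff_bijective _).1 h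

open StalkSkyscraperPresheafAdjunctionAuxs

lemma toSky_app {F : Type} [Field F] {X : TopCat.{0}} (x : X) [∀ U : Opens X, Decidable (x ∈ U)]
    (P : TopCat.Presheaf (ModuleCat.{0} F) X) (M : ModuleCat.{0} F) (k : P.stalk x ⟶ M)
    (V : Opens X) (hV : x ∈ V) :
    (toSkyscraperPresheaf x k).app (op V) = P.germ V x hV ≫ k ≫ eqToHom (if_pos hV).symm :=
  dif_pos hV

lemma toSky_app' {F : Type} [Field F] {X : TopCat.{0}} (x : X) [∀ U : Opens X, Decidable (x ∈ U)]
    (P : TopCat.Presheaf (ModuleCat.{0} F) X) (V : Opens X) (hV : x ∈ V) :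
    (toSkyscraperPresheaf x (𝟙 (P.stalk x))).app (op V) ≫ eqToHom (if_pos hV) =
      P.germ V x hV := by
  have h := toSky_app x P _ (𝟙 (P.stalk x)) V hV
  have h2 := congrArg (fun q => q ≫ eqToHom (if_pos hV)) h
  refine h2.trans ?_
  have h3 : (eqToHom (if_pos hV).symm : P.stalk x ⟶ (if x ∈ V then P.stalk x else ⊤_ _)) ≫
      eqToHom (if_pos hV) = 𝟙 _ := by
    rw [eqToHom_trans, eqToHom_refl]
  have h4 : (P.germ V x hV ≫ 𝟙 (P.stalk x) ≫
      (eqToHom (if_pos hV).symm : P.stalk x ⟶ (if x ∈ V then P.stalk x else ⊤_ _))) ≫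
      eqToHom (if_pos hV) = P.germ V x hV := by
    rw [Category.assoc, Category.assoc, h3, Category.comp_id, Category.comp_id]
  exact h4

/-- PS: stalks of the pullback -/
theorem pf_PS : T_PS := by
  classical
  intro F _ X Y f A y
  constructor
  · -- injective
    let M : ModuleCat.{0} F := TopCat.Presheaf.stalk A.1 (f y)
    let φ0 : A.1 ⟶ skyscraperPresheaf (f y) M := toSkyscraperPresheaf (f y) (𝟙 M)
    let φ : A ⟶ (pf F f).obj (skyscraperSheaf y M) := ⟨φ0⟩
    let k : TopCat.Presheaf.stalk ((pb F f).obj A).1 y ⟶ M := fromStalk y (adjUp f φ).1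
    have key : ∀ g : Stk A (f y), k.hom (sg f A y g) = g := by
      intro g
      obtain ⟨V, hx, s, rfl⟩ := exists_gm A g
      rw [sg_gm]
      have h1 := germ_fromStalk y (adjUp f φ).1 (pre f V) hx
      have h2 := congrArg (fun q => q.hom (ps f A V s)) h1
      have h3 := adjUp_ps f φ V s
      have h4 := toSky_app' (f y) A.1 V hx
      have h5 := congrArg (fun q => q.hom s) h4
      refine h2.trans (Eq.trans ?_ h5)
      exact congrArg (fun w => (eqToHom (if_pos hx) : _ ⟶ M).hom w) h3
    intro a b hab
    have := key a
    rw [hab, key b] at this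
    exact this.symm
  · -- surjective
    have he : Epi (ModuleCat.ofHom (sg f A y)) := by
      constructor
      intro M k k' hkk
      have h1 : (⟨toSkyscraperPresheaf y k⟩ : (pb F f).obj A ⟶ skyscraperSheaf y M) =
          ⟨toSkyscraperPresheaf y k'⟩ := by
        apply pb_hom_ext
        intro V s
        by_cases hV : y ∈ pre f V
        · have e1 : ∀ q : TopCat.Presheaf.stalk ((pb F f).obj A).1 y ⟶ M,
              ap (⟨toSkyscraperPresheaf y q⟩ : (pb F f).obj A ⟶ skyscraperSheaf y M) (pre f V)
                (ps f A V s) =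
              (eqToHom (if_pos hV).symm : M ⟶ (skyscraperPresheaf y M).obj (op (pre f V))).hom
                (q.hom (sg f A y (gm A (V := V) hV s))) := by
            intro q
            have h2 := toSky_app y ((pb F f).obj A).1 M q (pre f V) hV
            have h3 := congrArg (fun q => q.hom (ps f A V s)) h2
            refine h3.trans ?_
            have h4 := sg_gm f A y (V := V) hV s
            exact congrArg (fun w =>
              (eqToHom (if_pos hV).symm : M ⟶ (skyscraperPresheaf y M).obj (op (pre f V))).hom
                (q.hom w)) h4.symm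
          refine (e1 k).trans (Eq.trans ?_ (e1 k').symm)
          have := congrArg (fun q => q.hom (gm A (V := V) hV s)) hkk
          exact congrArg _ this
        · have ht : IsTerminal ((skyscraperSheaf y M).1.obj (op (pre f V))) :=
            isTerminalSkyscraperSheafObjObjOfNotMem hV
          have := ht.hom_ext ((toSkyscraperPresheaf y k).app (op (pre f V)))
            ((toSkyscraperPresheaf y k').app (op (pre f V)))
          exact congrArg (fun q => q.hom (ps f A V s)) this
      have h2 : toSkyscraperPresheaf y k = toSkyscraperPresheaf y k' :=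
        congrArg (fun q => q.1) h1
      rw [← fromStalk_to_skyscraper y k, ← fromStalk_to_skyscraper y k', h2]
    exact (ModuleCat.epi_iff_surjective _).1 he

end Pool.Agent.H20.AT
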